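import Pool.Agent.K1H49.PL.Stm

/-!
# Project PL: the set of realizations of a shape, and `S_SUBB` from `S_EXT`
-/

set_option autoImplicit false

namespace Pool.Agent.K1H36.PL

open Pool.Agent.K1H49.PL

universe u

variable {M : Type u}

/-! ### maps of the tree -/

lemma emb_mono {e : Nd → Nd} (he : Emb e) {x y : Nd} (h : x <+: y) : e x <+: e y := by
  obtain ⟨t, rfl⟩ := h
  induction t using List.reverseRecOn with
  | nil => simp
  | append_singleton t d ih =>
    rw [← List.append_assoc]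
    exact ih.trans ((List.prefix_append _ _).trans (he (x ++ t) d))

lemma emb_comp {f e : Nd → Nd} (hf : Emb f) (he : Emb e) : Emb (fun π => f (e π)) :=
  fun π d => (hf (e π) d).trans (emb_mono hf (he π d))

lemma emb_id : Emb (fun π => π) := fun _ _ => List.prefix_rfl

/-! ### definable sets -/

/-- finite intersections over a list -/
lemma D_list (Y : Sys M) {α κ : Type} (S : κ → Set (α → M)) (l : List κ)
    (h : ∀ p ∈ l, Y.D (S p)) : Y.D {v | ∀ p ∈ l, v ∈ S p} := by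
  induction l with
  | nil =>
    have e : {v : α → M | ∀ p ∈ ([] : List κ), v ∈ S p} = Set.univ := by
      ext v; simp
    rw [e]
    exact Y.univ
  | cons a l ih =>
    have e : {v : α → M | ∀ p ∈ a :: l, v ∈ S p} = S a ∩ {v | ∀ p ∈ l, v ∈ S p} := by
      ext v; simp
    rw [e]
    exact Y.inter (h a (by simp)) (ih fun p hp => h p (by simp [hp]))

/-- the set of the trees of height `m` which realize the shape `F` -/
def SF {Y : Sys M} {Λ A ι : Type} (R : RS Y Λ A ι) (F : Sh Λ) (m : ℕ) :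
    Set ((LN m × ι) → M) :=
  {v | ∃ w, R.r0 w ∧ ∀ p ∈ F.pos [], ∀ h : p.1.length ≤ m, R.r p.2 w (fun i => v (⟨p.1, h⟩, i))}

/-- the set of realizations is definable -/
lemma D_SF {Y : Sys M} {Λ A ι : Type} [Finite A] (R : RS Y Λ A ι) (F : Sh Λ) (m : ℕ) :
    Y.D (SF R F m) := by
  classical
  have h1 : Y.D {u : (LN m × ι) ⊕ A → M | R.r0 (u ∘ Sum.inr)} :=
    Y.pull (Sum.inr : A → (LN m × ι) ⊕ A) R.d0
  have h2 : ∀ p : Nd × Λ, Y.D {u : (LN m × ι) ⊕ A → M |
      ∀ h : p.1.length ≤ m, R.r p.2 (u ∘ Sum.inr) (fun i => u (Sum.inl (⟨p.1, h⟩, i)))} := by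
    intro p
    by_cases h : p.1.length ≤ m
    · have := Y.pull (Sum.elim (fun a => Sum.inr a) (fun i => Sum.inl (⟨p.1, h⟩, i)) :
        A ⊕ ι → (LN m × ι) ⊕ A) (R.d p.2)
      convert this using 2
      ext u
      constructor
      · intro hu
        exact hu h
      · intro hu _
        exact hu
    · convert Y.univ using 1
      ext u
      simp [h]
  have h3 := Y.inter h1 (D_list Y (fun p : Nd × Λ => {u : (LN m × ι) ⊕ A → M |
      ∀ h : p.1.length ≤ m, R.r p.2 (u ∘ Sum.inr) (fun i => u (Sum.inl (⟨p.1, h⟩, i)))})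
      (F.pos []) (fun p _ => h2 p))
  exact Y.proj h3

/-- the height of a shape -/
lemma exists_height {Λ : Type} (l : List (Nd × Λ)) : ∃ m : ℕ, ∀ p ∈ l, p.1.length ≤ m := by
  induction l with
  | nil => exact ⟨0, by simp⟩
  | cons a l ih =>
    obtain ⟨m, hm⟩ := ih
    refine ⟨max a.1.length m, fun p hp => ?_⟩
    rcases List.mem_cons.1 hp with rfl | hp
    · exact le_max_left _ _
    · exact (hm p hp).trans (le_max_right _ _)

lemma mem_SF {Y : Sys M} {Λ A ι : Type} (R : RS Y Λ A ι) (F : Sh Λ) (m : ℕ)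
    (hm : ∀ p ∈ F.pos [], p.1.length ≤ m) (c : Nd → ι → M) (e : Nd → Nd) :
    (fun p : LN m × ι => c (e p.1.1) p.2) ∈ SF R F m ↔ Good R c F e := by
  constructor
  · rintro ⟨w, hw, h⟩
    exact ⟨w, hw, fun p hp => h p hp (hm p hp)⟩
  · rintro ⟨w, hw, h⟩
    exact ⟨w, hw, fun p hp _ => h p hp⟩

/-- `AllG` is a homogeneous property -/
lemma Hm_SF_iff {Y : Sys M} {Λ A ι : Type} (R : RS Y Λ A ι) (F : Sh Λ) (m : ℕ)
    (hm : ∀ p ∈ F.pos [], p.1.length ≤ m) (c : Nd → ι → M) :
    Hm c m (SF R F m) ↔ AllG R c F :=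
  forall_congr' fun e => imp_congr Iff.rfl (mem_SF R F m hm c e)

/-- homogeneous properties pass to subtrees -/
lemma Hm_comp {ι : Type} {c : Nd → ι → M} {f : Nd → Nd} (hf : Emb f) {m : ℕ}
    {S : Set ((LN m × ι) → M)} (h : Hm c m S) : Hm (fun π => c (f π)) m S :=
  fun _ he => h _ (emb_comp hf he)

/-- a maximal tree satisfies `AllG` as soon as one of its subtrees does -/
lemma AllG_of_comp {Y : Sys M} {ι : Type} {c : Nd → ι → M} (hc : MaxT Y c) {Λ A : Type}
    [Finite A] (R : RS Y Λ A ι) (F : Sh Λ) {f : Nd → Nd} (hf : Emb f)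
    (h : AllG R (fun π => c (f π)) F) : AllG R c F := by
  obtain ⟨m, hm⟩ := exists_height (F.pos [])
  rw [← Hm_SF_iff R F m hm]
  exact hc (fun π => c (f π)) (fun m S _ hS => Hm_comp hf hS) m (SF R F m) (D_SF R F m)
    ((Hm_SF_iff R F m hm _).2 h)

theorem t_SUBB (h : S_EXT) : S_SUBB.{u} := by
  intro M Y ι _ c hc Λ A _ R F F' hsub hF'
  obtain ⟨N, hN, hext⟩ := h hsub
  refine AllG_of_comp hc R F hN ?_
  intro e he
  obtain ⟨e', he', hp⟩ := hext e he
  obtain ⟨w, hw, hw'⟩ := hF' e' he'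
  refine ⟨w, hw, fun p hpF => ?_⟩
  obtain ⟨π, hπ, hπe⟩ := hp p hpF
  have := hw' (π, p.2) hπ
  simp only [hπe] at this
  exact this

end Pool.Agent.K1H36.PL
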